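import Pool.Agent.MP_646035_al.MC.Stmt

/-!
Non-orientable surfaces of finite type and their mapping class groups.
-/

namespace Pool.Agent.MP_646035_al.MC

variable {X : Type} [TopologicalSpace X] (c : Marks X)

/-- `X` with the open discs removed. -/
def Marks.Cut : Type := {x : X // ∀ i z, ‖z‖ < 1 → c.d i z ≠ x}

instance : TopologicalSpace c.Cut := instTopologicalSpaceSubtype

/-- Antipodal points of a boundary circle. -/
def Marks.Anti (x y : c.Cut) : Prop := ∃ i z, ‖z‖ = 1 ∧ x.1 = c.d i z ∧ y.1 = c.d i (-z)

/-- Every disc is replaced by a cross cap: the open disc is removed and antipodal points of its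
boundary circle are identified. -/
def Marks.Cross : Type := Quot c.Anti

instance : TopologicalSpace c.Cross := instTopologicalSpaceQuot

end Pool.Agent.MP_646035_al.MC
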